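import Mathlib

/-!
# Project DM (helper64), MP_04276e_nt, frozen S15889: dual multiplicative approximation with one
random coordinate.  Definitions and statements (Mathlib only).

`d ≥ 1` fixed numbers `α i`, the random number is `t`, `k = d + 1`.
-/

set_option autoImplicit false

namespace Pool.Agent.W64.DM

open MeasureTheory Set Filter

/-- distance to the nearest integer -/
noncomputable def nn (x : ℝ) : ℝ := |x - round x|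

/-- `∑ m_i α_i` -/
noncomputable def dotp {d : ℕ} (α : Fin d → ℝ) (m : Fin d → ℤ) : ℝ := ∑ i, (m i : ℝ) * α i

/-- `∏ max (|m_i|, 2)` -/
noncomputable def Hm {d : ℕ} (m : Fin d → ℤ) : ℝ := ∏ i, max |(m i : ℝ)| 2

/-- near admissibility of the linear form -/
def NA {d : ℕ} (α : Fin d → ℝ) (c0 : ℝ) : Prop := 0 < c0 ∧ ∀ m : Fin d → ℤ, m ≠ 0 →
  c0 / (Hm m * Real.log (2 * Hm m) ^ (d + 1)) ≤ nn (dotp α m)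

/-! ### General lemmas -/

/-- VOL -/
def S_VOL : Prop := ∀ (g : ℕ) (y ρ : ℝ), 1 ≤ g → 0 ≤ ρ → ρ ≤ 1 / 2 →
  (volume (Icc (0 : ℝ) 1 ∩ {t : ℝ | nn (y + g * t) < ρ})).toReal = 2 * ρ

/-- OVL: overlaps.  `p = n / gcd`, `p' = n' / gcd`. -/
def S_OVL : Prop := ∀ (g p p' : ℕ) (x x' r r' : ℝ), 1 ≤ g → 1 ≤ p → 1 ≤ p' → Nat.Coprime p p' →
  0 < r → 0 < r' → 2 * (p' * r + p * r') < 1 →
  (volume (Icc (0 : ℝ) 1 ∩ {t : ℝ | nn (x + (g * p : ℕ) * t) < r ∧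
    nn (x' + (g * p' : ℕ) * t) < r'})).toReal ≤
    if nn (p' * x - p * x') < p' * r + p * r' then 4 * min (r / p) (r' / p') else 0

/-- the square of a normalised geometric sum is at most this -/
noncomputable def hh (Q : ℕ) (u : ℝ) : ℝ := 1 / max 1 (16 * (Q : ℝ) ^ 2 * u ^ 2)

/-- GEO: geometric sums -/
def S_GEO : Prop := ∀ (Q : ℕ) (τ : ℝ), 1 ≤ Q →
  ‖∑ u ∈ Finset.range (2 * Q), Complex.exp (2 * Real.pi * Complex.I * (τ * (u : ℝ) : ℝ))‖ ^ 2 ≤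
    4 * (Q : ℝ) ^ 2 * hh Q (nn τ)

/-- CELL -/
def S_CELL : Prop := ∀ (ι : Type) [Fintype ι] (Q : ι → ℕ) (θ : ι → ℝ) (S : ℕ), (∀ i, 1 ≤ Q i) →
  (∀ t : ℕ, 0 < t → t < 2 * S → ∃ i, 1 / (Q i : ℝ) ≤ nn (t * θ i)) →
  ∑ t ∈ Finset.Ioo (-(S : ℤ)) S, ∏ i, hh (Q i) (nn (t * θ i)) ≤ 3 ^ Fintype.card ι

open Classical in
/-- CNT: points of a box with a small linear form -/
def S_CNT : Prop := ∀ (ι : Type) [Fintype ι] (Q x : ι → ℕ) (θ : ι → ℝ) (y ρ : ℝ), (∀ i, 1 ≤ Q i) →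
  0 < ρ → ρ ≤ 1 / 8 → (∀ t : ℕ, 0 < t → (t : ℝ) ≤ 1 / ρ → ∃ i, 1 / (Q i : ℝ) ≤ nn (t * θ i)) →
  (((Fintype.piFinset fun i => Finset.Ico (x i) (x i + Q i)).filter fun M =>
    nn (∑ i, θ i * (M i : ℝ) - y) < ρ).card : ℝ) ≤
    32 * 12 ^ Fintype.card ι * ρ * ∏ i, (Q i : ℝ)

/-- NOT: no simultaneous approximation.  `p` is the larger of the two numbers `n / gcd`. -/
def S_NOT : Prop := ∀ (d : ℕ) (α : Fin d → ℝ) (c0 C : ℝ), 1 ≤ d → NA α c0 → ∃ R0 : ℕ,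
  ∀ R : ℕ, R0 ≤ R → ∀ (a : Fin d → ℕ) (b p t : ℕ), (∀ i, 3 * R ≤ a i ∧ a i < 4 * R) →
  b < 2 * R → p < 2 ^ (2 * R) → 2 ^ R ≤ p * 2 ^ (R / 4) → 2 ^ b ≤ p * 2 ^ (R / 4) → 1 ≤ t →
  (t : ℝ) * p ≤ C * (R : ℝ) ^ (d + 1) * 2 ^ (∑ i, a i + b) →
  ∃ i, 1 / ((2 : ℝ) ^ a i * p) ≤ nn (t * α i)

/-- the radius on the dyadic box `(a, b)` at the scale `R` -/
noncomputable def rad (d R : ℕ) (a : Fin d → ℕ) (b : ℕ) : ℝ :=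
  1 / (((4 * d + 2 : ℝ) * R) ^ (d + 1) * 2 ^ (∑ i, a i + b + (d + 1)))

/-- TT: the hypothesis of CNT for good pairs -/
def S_TT : Prop := ∀ (d : ℕ) (α : Fin d → ℝ) (c0 : ℝ), 1 ≤ d → NA α c0 → ∃ R0 : ℕ,
  ∀ R : ℕ, R0 ≤ R → ∀ (a a' : Fin d → ℕ) (b b' g p p' t : ℕ),
  (∀ i, 3 * R ≤ a i ∧ a i < 4 * R) → (∀ i, 3 * R ≤ a' i ∧ a' i < 4 * R) →
  R ≤ b → b < 2 * R → R ≤ b' → b' < 2 * R →
  2 ^ b ≤ g * p → g * p < 2 ^ (b + 1) → 2 ^ b' ≤ g * p' → g * p' < 2 ^ (b' + 1) →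
  Nat.Coprime p p' → g ≤ 2 ^ (R / 4) → 1 ≤ t →
  (t : ℝ) * (p' * rad d R a b + p * rad d R a' b') ≤ 1 →
  ∃ i, 1 / (2 : ℝ) ^ a i ≤ nn (t * (p' * α i)) ∨ 1 / (2 : ℝ) ^ a' i ≤ nn (t * (p * α i))

/-- the box `2^(a_i) ≤ m_i < 2^(a_i + 1)` -/
def bx {d : ℕ} (a : Fin d → ℕ) : Finset (Fin d → ℕ) :=
  Fintype.piFinset fun i => Finset.Ico (2 ^ a i) (2 ^ (a i + 1))

/-- the vector `p' m - p m'` -/
def ww {d : ℕ} (p p' : ℕ) (m m' : Fin d → ℕ) : Fin d → ℤ := fun i => (p' : ℤ) * m i - p * m' i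

open Classical in
/-- number of pairs `(m, m')` with `w = p' m - p m' ≠ 0` and `‖α · w‖ < ρ` -/
noncomputable def cnt {d : ℕ} (α : Fin d → ℝ) (p p' : ℕ) (a a' : Fin d → ℕ) (ρ : ℝ) : ℕ :=
  ((bx a ×ˢ bx a').filter fun q => ww p p' q.1 q.2 ≠ 0 ∧ nn (dotp α (ww p p' q.1 q.2)) < ρ).card

/-- GOOD: pairs with small gcd -/
def S_GOOD : Prop := ∀ (d : ℕ) (α : Fin d → ℝ) (c0 : ℝ), 1 ≤ d → NA α c0 → ∃ R0 : ℕ,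
  ∀ R : ℕ, R0 ≤ R → ∀ (a a' : Fin d → ℕ) (b b' g p p' : ℕ),
  (∀ i, 3 * R ≤ a i ∧ a i < 4 * R) → (∀ i, 3 * R ≤ a' i ∧ a' i < 4 * R) →
  R ≤ b → b < 2 * R → R ≤ b' → b' < 2 * R →
  2 ^ b ≤ g * p → g * p < 2 ^ (b + 1) → 2 ^ b' ≤ g * p' → g * p' < 2 ^ (b' + 1) →
  Nat.Coprime p p' → g ≤ 2 ^ (R / 4) →
  (cnt α p p' a a' (p' * rad d R a b + p * rad d R a' b') : ℝ) ≤
    32 * 12 ^ (2 * d) * (p' * rad d R a b + p * rad d R a' b') * 2 ^ (∑ i, a i + ∑ i, a' i)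

/-- BADC: a weaker bound for all pairs -/
def S_BADC : Prop := ∀ (d : ℕ) (α : Fin d → ℝ) (c0 : ℝ), 1 ≤ d → NA α c0 → ∃ C : ℝ, 0 < C ∧
  ∀ R : ℕ, 1 ≤ R → ∀ (a a' : Fin d → ℕ) (p p' : ℕ) (ρ : ℝ),
  (∀ i, 3 * R ≤ a i ∧ a i < 4 * R) → (∀ i, 3 * R ≤ a' i ∧ a' i < 4 * R) →
  1 ≤ p → 1 ≤ p' → p < 2 ^ (2 * R) → p' < 2 ^ (2 * R) → Nat.Coprime p p' → 0 < ρ →
  (cnt α p p' a a' ρ : ℝ) ≤ C * (R : ℝ) ^ (d + 1) * ρ * 2 ^ (∑ i, a i + ∑ i, a' i)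

/-- GCD: pairs with a large gcd -/
def S_GCD : Prop := ∀ (b b' G : ℕ), 1 ≤ G →
  ((Finset.Ico (2 ^ b) (2 ^ (b + 1)) ×ˢ Finset.Ico (2 ^ b') (2 ^ (b' + 1))).filter fun q =>
    G < Nat.gcd q.1 q.2).card * G ≤ 18 * 2 ^ (b + b')

/-- COP: coprime pairs -/
def S_COP : Prop := ∃ b0 : ℕ, ∀ a b : ℕ, b0 ≤ b → b ≤ a →
  2 ^ (a + b) ≤ 8 * ((Finset.Ico (2 ^ a) (2 ^ (a + 1)) ×ˢ Finset.Ico (2 ^ b) (2 ^ (b + 1))).filter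
    fun q => Nat.Coprime q.1 q.2).card

/-- CE: the Chung-Erdős inequality -/
def S_CE : Prop := ∀ (ι : Type) (V : Finset ι) (E : ι → Set ℝ), (∀ v, MeasurableSet (E v)) →
  (∀ v, E v ⊆ Icc 0 1) → (∑ v ∈ V, (volume (E v)).toReal) ^ 2 ≤
    (volume (⋃ v ∈ V, E v)).toReal * ∑ v ∈ V, ∑ v' ∈ V, (volume (E v ∩ E v')).toReal

/-! ### The family at the scale `R` -/

/-- indices: `(a, b, m, n)` -/
abbrev Ix (d : ℕ) : Type := (Fin d → ℕ) × ℕ × (Fin d → ℕ) × ℕ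

/-- the exponents `a` -/
def AA (d R : ℕ) : Finset (Fin d → ℕ) := Fintype.piFinset fun _ => Finset.Ico (3 * R) (4 * R)

/-- the family: `a ∈ AA`, `R ≤ b < 2 R`, `m ∈ bx a`, `2^b ≤ n < 2^(b+1)`, `gcd (m i0, n) = 1` -/
def FV (d R : ℕ) (i0 : Fin d) : Finset (Ix d) :=
  (AA d R).biUnion fun a => (Finset.Ico R (2 * R)).biUnion fun b =>
    ((bx a ×ˢ Finset.Ico (2 ^ b) (2 ^ (b + 1))).filter fun q => Nat.Coprime (q.1 i0) q.2).image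
      fun q => (a, b, q.1, q.2)

/-- the set of the `t` with `‖m · α + n t‖ < rad` -/
noncomputable def EE {d : ℕ} (α : Fin d → ℝ) (R : ℕ) (v : Ix d) : Set ℝ :=
  Icc (0 : ℝ) 1 ∩ {t : ℝ | nn (dotp α (fun i => (v.2.2.1 i : ℤ)) + v.2.2.2 * t) <
    rad d R v.1 v.2.1}

/-- FIRST: first moment -/
def S_FIRST : Prop := ∀ (d : ℕ) (α : Fin d → ℝ) (i0 : Fin d), ∃ c : ℝ, 0 < c ∧ ∃ R0 : ℕ,
  ∀ R : ℕ, R0 ≤ R → c ≤ ∑ v ∈ FV d R i0, (volume (EE α R v)).toReal ∧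
    ∑ v ∈ FV d R i0, (volume (EE α R v)).toReal ≤ 1

/-- SEC: second moment -/
def S_SEC : Prop := ∀ (d : ℕ) (α : Fin d → ℝ) (c0 : ℝ) (i0 : Fin d), NA α c0 → ∃ C : ℝ, 0 < C ∧
  ∃ R0 : ℕ, ∀ R : ℕ, R0 ≤ R →
    ∑ v ∈ FV d R i0, ∑ v' ∈ FV d R i0, (volume (EE α R v ∩ EE α R v')).toReal ≤ C

/-- the approximation function of the problem -/
noncomputable def psi {d : ℕ} (m : Fin d → ℤ) (n : ℤ) : ℝ :=
  1 / ((Hm m * max |(n : ℝ)| 2) * Real.log (Hm m * max |(n : ℝ)| 2) ^ (d + 1))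

/-- the set of the good `t` (only `n ≥ 1` is used) -/
def WW {d : ℕ} (α : Fin d → ℝ) : Set ℝ :=
  {t : ℝ | Set.Infinite {v : (Fin d → ℤ) × ℤ | 1 ≤ v.2 ∧ nn (dotp α v.1 + v.2 * t) < psi v.1 v.2}}

/-- POS: positive measure -/
def S_POS : Prop := ∀ (d : ℕ) (α : Fin d → ℝ) (c0 : ℝ), 1 ≤ d → NA α c0 →
  0 < volume (Icc (0 : ℝ) 1 ∩ WW α)

/-- ZO: the zero-one law -/
def S_ZO : Prop := ∀ (d : ℕ) (α : Fin d → ℝ), 1 ≤ d → 0 < volume (Icc (0 : ℝ) 1 ∩ WW α) →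
  ∀ᵐ t : ℝ ∂volume, t ∈ WW α

end Pool.Agent.W64.DM
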