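import Pool.Agent.W64.DM.Stm

/-!
# Project DM: final assembly
-/

set_option autoImplicit false

namespace Pool.Agent.W64.DM

open MeasureTheory Set Filter

theorem nn_nonneg (x : ℝ) : 0 ≤ nn x := abs_nonneg _

theorem nn_eq_zero_mul {x : ℝ} (h : nn x = 0) (j : ℤ) : nn (j * x) = 0 := by
  unfold nn at *
  rw [abs_eq_zero, sub_eq_zero] at h ⊢
  rw [h]
  have : ((j : ℝ) * (round x : ℝ)) = ((j * round x : ℤ) : ℝ) := by push_cast; ring
  rw [this, round_intCast]

theorem Hm_ge {d : ℕ} (m : Fin d → ℤ) : 1 ≤ Hm m := by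
  unfold Hm
  have h : ∏ i : Fin d, (1 : ℝ) ≤ ∏ i, max |(m i : ℝ)| 2 :=
    Finset.prod_le_prod (fun _ _ => zero_le_one) fun i _ => le_max_of_le_right (by norm_num)
  simpa using h

/-- if there are many small values of the form with `n = 0`, or a zero, the problem is trivial -/
theorem triv {d : ℕ} (α : Fin d → ℝ) (h : Set.Infinite {m : Fin d → ℤ | nn (dotp α m) <
    1 / ((Hm m * 2) * Real.log (Hm m * 2) ^ (d + 1))}) (t : ℝ) :
    Set.Infinite {n : Fin (d + 1) → ℤ |
          |(∑ i : Fin d, (n (Fin.castSucc i) : ℝ) * α i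
              + (n (Fin.last d) : ℝ) * t)
            - (round (∑ i : Fin d, (n (Fin.castSucc i) : ℝ) * α i
              + (n (Fin.last d) : ℝ) * t) : ℝ)|
          < 1 / ((∏ i : Fin (d + 1), max |(n i : ℝ)| 2)
              * (Real.log (∏ i : Fin (d + 1), max |(n i : ℝ)| 2)) ^ (d + 1))} := by
  have hinj : Set.InjOn (fun m : Fin d → ℤ => (Fin.snoc m 0 : Fin (d + 1) → ℤ)) Set.univ := by
    intro m _ m' _ hmm
    funext i
    have := congrFun hmm (Fin.castSucc i)
    simpa using this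
  refine Set.Infinite.mono ?_ (h.image (hinj.mono (Set.subset_univ _)))
  rintro _ ⟨m, hm, rfl⟩
  simp only [Set.mem_ofPred_eq, Fin.snoc_castSucc, Fin.snoc_last, Int.cast_zero, zero_mul, add_zero]
  rw [Fin.prod_univ_castSucc]
  simp only [Fin.snoc_castSucc, Fin.snoc_last, Int.cast_zero, abs_zero]
  rw [max_eq_right (by norm_num : (0 : ℝ) ≤ 2)]
  exact hm

/-- from `WW` to the set of the problem -/
theorem of_WW {d : ℕ} (α : Fin d → ℝ) {t : ℝ} (h : t ∈ WW α) :
    Set.Infinite {n : Fin (d + 1) → ℤ |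
          |(∑ i : Fin d, (n (Fin.castSucc i) : ℝ) * α i
              + (n (Fin.last d) : ℝ) * t)
            - (round (∑ i : Fin d, (n (Fin.castSucc i) : ℝ) * α i
              + (n (Fin.last d) : ℝ) * t) : ℝ)|
          < 1 / ((∏ i : Fin (d + 1), max |(n i : ℝ)| 2)
              * (Real.log (∏ i : Fin (d + 1), max |(n i : ℝ)| 2)) ^ (d + 1))} := by
  have hinj : Set.InjOn (fun v : (Fin d → ℤ) × ℤ => (Fin.snoc v.1 v.2 : Fin (d + 1) → ℤ))
      Set.univ := by
    intro v _ v' _ hvv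
    refine Prod.ext ?_ ?_
    · funext i
      have := congrFun hvv (Fin.castSucc i)
      simpa using this
    · have := congrFun hvv (Fin.last d)
      simpa using this
  refine Set.Infinite.mono ?_ (h.image (hinj.mono (Set.subset_univ _)))
  rintro _ ⟨v, ⟨hv1, hv2⟩, rfl⟩
  simp only [Set.mem_ofPred_eq, Fin.snoc_castSucc, Fin.snoc_last]
  rw [Fin.prod_univ_castSucc]
  simp only [Fin.snoc_castSucc, Fin.snoc_last]
  exact hv2

/-- near admissibility when the problem is not trivial -/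
theorem exists_NA {d : ℕ} (α : Fin d → ℝ) (h : ¬ Set.Infinite {m : Fin d → ℤ | nn (dotp α m) <
    1 / ((Hm m * 2) * Real.log (Hm m * 2) ^ (d + 1))}) : ∃ c0, NA α c0 := by
  have hlog : ∀ m : Fin d → ℤ, 0 < Real.log (2 * Hm m) := fun m =>
    Real.log_pos (by linarith [Hm_ge m])
  have hden : ∀ m : Fin d → ℤ, 0 < Hm m * Real.log (2 * Hm m) ^ (d + 1) := fun m =>
    mul_pos (by linarith [Hm_ge m]) (pow_pos (hlog m) _)
  have heq : ∀ m : Fin d → ℤ, 1 / ((Hm m * 2) * Real.log (Hm m * 2) ^ (d + 1)) =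
      (1 / 2) / (Hm m * Real.log (2 * Hm m) ^ (d + 1)) := by
    intro m
    rw [mul_comm (Hm m) 2, div_div]
    congr 1
    ring
  simp only [heq] at h
  have hne : ∀ m : Fin d → ℤ, m ≠ 0 → 0 < nn (dotp α m) := by
    intro m hm
    rcases (nn_nonneg (dotp α m)).lt_or_eq with h0 | h0
    · exact h0
    · exfalso
      apply h
      have hinj : Set.InjOn (fun j : ℤ => j • m) Set.univ := by
        intro j _ j' _ hjj
        exact smul_left_injective ℤ hm hjj
      refine Set.Infinite.mono ?_ (Set.infinite_univ.image hinj)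
      rintro _ ⟨j, -, rfl⟩
      have e1 : dotp α (j • m) = j * dotp α m := by
        unfold dotp
        rw [Finset.mul_sum]
        refine Finset.sum_congr rfl fun i _ => ?_
        rw [Pi.smul_apply, smul_eq_mul]
        push_cast
        ring
      show nn (dotp α (j • m)) < _
      rw [e1, nn_eq_zero_mul h0.symm]
      exact div_pos (by norm_num) (hden _)
  have hfin : Set.Finite {m : Fin d → ℤ | nn (dotp α m) <
      (1 / 2) / (Hm m * Real.log (2 * Hm m) ^ (d + 1))} := Set.not_infinite.mp h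
  classical
  let B : Finset (Fin d → ℤ) := hfin.toFinset.filter fun m => m ≠ 0
  let f : (Fin d → ℤ) → ℝ := fun m => nn (dotp α m) * (Hm m * Real.log (2 * Hm m) ^ (d + 1))
  have hB : ∃ c : ℝ, 0 < c ∧ ∀ m ∈ B, c ≤ f m := by
    rcases B.eq_empty_or_nonempty with h0 | h0
    · exact ⟨1, one_pos, fun m hm => by rw [h0] at hm; simp at hm⟩
    · obtain ⟨m0, hm0, hmin⟩ := B.exists_min_image f h0
      refine ⟨f m0, ?_, hmin⟩
      exact mul_pos (hne m0 (Finset.mem_filter.mp hm0).2) (hden m0)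
  obtain ⟨c, hc, hcB⟩ := hB
  refine ⟨min c (1 / 2), lt_min hc (by norm_num), fun m hm => ?_⟩
  by_cases hmB : nn (dotp α m) < (1 / 2) / (Hm m * Real.log (2 * Hm m) ^ (d + 1))
  · have h1 : m ∈ B := Finset.mem_filter.mpr ⟨hfin.mem_toFinset.mpr hmB, hm⟩
    rw [div_le_iff₀ (hden m)]
    exact (min_le_left _ _).trans (hcB m h1)
  · push Not at hmB
    exact (div_le_div_of_nonneg_right (min_le_right _ _) (hden m).le).trans hmB

theorem fin_of (hPOS : S_POS) (hZO : S_ZO) (d : ℕ) (hd : 1 ≤ d) (α : Fin d → ℝ) :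
    ∀ᵐ t : ℝ ∂MeasureTheory.volume,
        Set.Infinite {n : Fin (d + 1) → ℤ |
          |(∑ i : Fin d, (n (Fin.castSucc i) : ℝ) * α i
              + (n (Fin.last d) : ℝ) * t)
            - (round (∑ i : Fin d, (n (Fin.castSucc i) : ℝ) * α i
              + (n (Fin.last d) : ℝ) * t) : ℝ)|
          < 1 / ((∏ i : Fin (d + 1), max |(n i : ℝ)| 2)
              * (Real.log (∏ i : Fin (d + 1), max |(n i : ℝ)| 2)) ^ (d + 1))} := by
  by_cases h : Set.Infinite {m : Fin d → ℤ | nn (dotp α m) <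
    1 / ((Hm m * 2) * Real.log (Hm m * 2) ^ (d + 1))}
  · exact Filter.Eventually.of_forall fun t => triv α h t
  · obtain ⟨c0, hc0⟩ := exists_NA α h
    filter_upwards [hZO d α hd (hPOS d α c0 hd hc0)] with t ht
    exact of_WW α ht

end Pool.Agent.W64.DM
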